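import Pool.Agent.V1146.Kol.Main

/-!
# Height-one primes associated to the normalization quotient

For every `d ≥ 1` there is a Noetherian (local) domain `R` of Krull dimension `d` such that every
prime ideal of height one of `R` is an associated prime of the `R`-module `Rⁿ / R`, where `Rⁿ` is
the integral closure of `R` in its fraction field.
-/

set_option autoImplicit false

namespace Pool.Agent.Results.MP_b58525_ag.AllHeightOnePrimes

/-- The `R`-module `Rⁿ / R`, where `Rⁿ` is the integral closure of `R` in `K`. -/
abbrev NormQuot (R K : Type) [CommRing R] [Field K] [Algebra R K] : Type :=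
  (integralClosure R K) ⧸ LinearMap.range (Algebra.linearMap R (integralClosure R K))

/-- `P` is an associated prime of the `R`-module `M`: it is prime and the annihilator of some
`m ∈ M`. -/
def IsAssociated {R : Type} [CommRing R] (P : Ideal R) (M : Type) [AddCommGroup M] [Module R M] :
    Prop :=
  P.IsPrime ∧ ∃ m : M, ∀ r : R, r ∈ P ↔ r • m = 0

/-- For every `d ≥ 1` there is a Noetherian integral domain `R` of Krull dimension `d`, with
fraction field `K`, such that every prime of height one is an associated prime of `Rⁿ / R`. -/
theorem result : ∀ d : ℕ, 1 ≤ d →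
    ∃ (R K : Type) (_ : CommRing R) (_ : IsDomain R) (_ : Field K) (_ : Algebra R K)
      (_ : IsFractionRing R K), IsNoetherianRing R ∧ ringKrullDim R = (d : WithBot ℕ∞) ∧
      ∀ P : Ideal R, P.IsPrime → P.height = 1 → IsAssociated P (NormQuot R K) := by
  intro d _
  obtain ⟨R, K, i1, i2, i3, i4, i5, h1, h2, h3, h4⟩ := Pool.Agent.V1146.Kol.final d
  exact ⟨R, K, i1, i2, i3, i4, i5, h1, h2, fun P hP hP1 => ⟨hP, h4 P hP hP1⟩⟩

end Pool.Agent.Results.MP_b58525_ag.AllHeightOnePrimes
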